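import Mathlib

namespace Pool.Agent.P.MP_768819_an

open MeasureTheory Finset

/-- the sign function used to cut the circle at a random diameter -/
noncomputable def sg (u θ : ℝ) : ℝ := if θ ≤ u then 1 else -1

lemma sg_mul_of_le {u v : ℝ} (h : u ≤ v) (θ : ℝ) :
    sg u θ * sg v θ = 1 - 2 * (Set.Ioc u v).indicator (fun _ => (1 : ℝ)) θ := by
  unfold sg
  by_cases h1 : θ ≤ u
  · have h2 : θ ≤ v := h1.trans h
    have h3 : θ ∉ Set.Ioc u v := fun hh => absurd hh.1 (not_lt.mpr h1)
    simp [h1, h2, Set.indicator_of_notMem h3]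
  · by_cases h2 : θ ≤ v
    · have h3 : θ ∈ Set.Ioc u v := ⟨not_le.mp h1, h2⟩
      simp [h1, h2, Set.indicator_of_mem h3]
      norm_num
    · have h3 : θ ∉ Set.Ioc u v := fun hh => h2 hh.2
      simp [h1, h2, Set.indicator_of_notMem h3]

lemma integrable_ind (M u v : ℝ) :
    IntegrableOn ((Set.Ioc u v).indicator (fun _ => (1 : ℝ))) (Set.Ioc 0 M) volume := by
  apply Integrable.indicator _ measurableSet_Ioc
  exact integrable_const _

lemma integrable_sg_mul_of_le (M : ℝ) {u v : ℝ} (h : u ≤ v) :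
    IntegrableOn (fun θ => sg u θ * sg v θ) (Set.Ioc 0 M) volume := by
  simp_rw [sg_mul_of_le h]
  exact (integrable_const _).sub ((integrable_ind M u v).const_mul 2)

lemma integrable_sg_mul (M u v : ℝ) :
    IntegrableOn (fun θ => sg u θ * sg v θ) (Set.Ioc 0 M) volume := by
  rcases le_total u v with h | h
  · exact integrable_sg_mul_of_le M h
  · simp_rw [mul_comm (sg u _)]
    exact integrable_sg_mul_of_le M h

lemma integral_sg_mul_of_le {M u v : ℝ} (hu : 0 ≤ u) (h : u ≤ v) (hv : v ≤ M) :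
    ∫ θ in Set.Ioc 0 M, sg u θ * sg v θ = M - 2 * (v - u) := by
  simp_rw [sg_mul_of_le h]
  have hM : 0 ≤ M := hu.trans (h.trans hv)
  rw [integral_sub (integrable_const _) ((integrable_ind M u v).const_mul 2), integral_const_mul,
    integral_indicator measurableSet_Ioc, Measure.restrict_restrict measurableSet_Ioc]
  have : Set.Ioc u v ∩ Set.Ioc 0 M = Set.Ioc u v :=
    Set.inter_eq_left.mpr (Set.Ioc_subset_Ioc hu hv)
  rw [this]
  simp [Measure.real, hM, sub_nonneg.mpr h]

lemma integral_sg_mul {M u v : ℝ} (hu : 0 ≤ u) (hu' : u ≤ M) (hv : 0 ≤ v) (hv' : v ≤ M) :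
    ∫ θ in Set.Ioc 0 M, sg u θ * sg v θ = M - 2 * |u - v| := by
  rcases le_total u v with h | h
  · rw [integral_sg_mul_of_le hu h hv', abs_sub_comm, abs_of_nonneg (sub_nonneg.mpr h)]
  · simp_rw [mul_comm (sg u _)]
    rw [integral_sg_mul_of_le hv h hu', abs_of_nonneg (sub_nonneg.mpr h)]

/-- the kernel `M - 2 |u - v|` is positive semidefinite on `[0, M]` -/
lemma psd {ι : Type*} (s : Finset ι) (M : ℝ) (c u : ι → ℝ)
    (h0 : ∀ i ∈ s, 0 ≤ u i) (h1 : ∀ i ∈ s, u i ≤ M) :
    0 ≤ ∑ i ∈ s, ∑ j ∈ s, c i * c j * (M - 2 * |u i - u j|) := by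
  have key : ∑ i ∈ s, ∑ j ∈ s, c i * c j * (M - 2 * |u i - u j|)
      = ∫ θ in Set.Ioc 0 M, ∑ i ∈ s, ∑ j ∈ s, c i * c j * (sg (u i) θ * sg (u j) θ) := by
    rw [integral_finset_sum]
    · refine Finset.sum_congr rfl fun i hi => ?_
      rw [integral_finset_sum]
      · refine Finset.sum_congr rfl fun j hj => ?_
        rw [integral_const_mul, integral_sg_mul (h0 i hi) (h1 i hi) (h0 j hj) (h1 j hj)]
      · intro j _
        exact (integrable_sg_mul M _ _).const_mul _
    · intro i _
      apply integrable_finset_sum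
      intro j _
      exact (integrable_sg_mul M _ _).const_mul _
  rw [key]
  apply integral_nonneg
  intro θ
  have : ∑ i ∈ s, ∑ j ∈ s, c i * c j * (sg (u i) θ * sg (u j) θ)
      = (∑ i ∈ s, c i * sg (u i) θ) ^ 2 := by
    rw [sq, Finset.sum_mul_sum]
    refine Finset.sum_congr rfl fun i _ => Finset.sum_congr rfl fun j _ => by ring
  simp only [Pi.zero_apply, this]
  positivity

/-- average arc distance on a circle of length `L` is at most `L / 4` -/
lemma circle_avg {ι : Type*} (s : Finset ι) (L : ℝ) (w t : ι → ℝ)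
    (hw : ∑ i ∈ s, w i = 1) (h0 : ∀ i ∈ s, 0 ≤ t i) (h1 : ∀ i ∈ s, t i ≤ L) :
    ∑ i ∈ s, ∑ j ∈ s, w i * w j * min |t i - t j| (L - |t i - t j|) ≤ L / 4 := by
  classical
  set M := L / 2 with hM
  let u : ι → ℝ := fun i => if t i ≤ M then t i else t i - M
  let e : ι → ℝ := fun i => if t i ≤ M then 1 else -1
  have hu0 : ∀ i ∈ s, 0 ≤ u i := by
    intro i hi
    simp only [u]
    split_ifs with h
    · exact h0 i hi
    · linarith [not_le.mp h]
  have hu1 : ∀ i ∈ s, u i ≤ M := by
    intro i hi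
    simp only [u]
    split_ifs with h
    · exact h
    · linarith [h1 i hi]
  have hp := psd s M (fun i => w i * e i) u hu0 hu1
  have hk : ∀ i ∈ s, ∀ j ∈ s, w i * e i * (w j * e j) * (M - 2 * |u i - u j|)
      = w i * w j * M - 2 * (w i * w j * min |t i - t j| (L - |t i - t j|)) := by
    intro i hi j hj
    have a0 := h0 i hi
    have a1 := h1 i hi
    have b0 := h0 j hj
    have b1 := h1 j hj
    have hL : L = 2 * M := by rw [hM]; ring
    have : e i * e j * (M - 2 * |u i - u j|) = M - 2 * min |t i - t j| (L - |t i - t j|) := by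
      simp only [u, e]
      split_ifs with h h' h'
      · have : |t i - t j| ≤ M := by rw [abs_le]; constructor <;> linarith
        rw [min_eq_left (by linarith)]; ring
      · have h' := not_le.mp h'
        rw [abs_of_nonpos (by linarith : t i - t j ≤ 0)]
        rcases le_total (t i - (t j - M)) 0 with hh | hh
        · rw [abs_of_nonpos hh, min_eq_right (by linarith)]; linarith
        · rw [abs_of_nonneg hh, min_eq_left (by linarith)]; linarith
      · have h := not_le.mp h
        rw [abs_of_nonneg (by linarith : 0 ≤ t i - t j)]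
        rcases le_total (t i - M - t j) 0 with hh | hh
        · rw [abs_of_nonpos hh, min_eq_left (by linarith)]; linarith
        · rw [abs_of_nonneg hh, min_eq_right (by linarith)]; linarith
      · have h := not_le.mp h
        have h' := not_le.mp h'
        have e1 : t i - M - (t j - M) = t i - t j := by ring
        have : |t i - t j| ≤ M := by rw [abs_le]; constructor <;> linarith
        rw [e1, min_eq_left (by linarith)]; ring
    calc w i * e i * (w j * e j) * (M - 2 * |u i - u j|)
        = w i * w j * (e i * e j * (M - 2 * |u i - u j|)) := by ring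
      _ = _ := by rw [this]; ring
  rw [Finset.sum_congr rfl fun i hi => Finset.sum_congr rfl fun j hj => hk i hi j hj] at hp
  simp_rw [Finset.sum_sub_distrib, ← Finset.mul_sum, ← Finset.sum_mul] at hp
  rw [← Finset.sum_mul_sum, hw] at hp
  linarith

/-- the main inequality for a closed polygon indexed by naturals -/
lemma main_nat {X : Type*} [NormedAddCommGroup X] [NormedSpace ℝ X] (r : ℕ) (q : ℕ → X)
    (hq : q r = q 0) (h1 : ∀ i ∈ range r, ‖q i‖ = 1) (w : ℕ → ℝ) (hw0 : ∀ i ∈ range r, 0 ≤ w i)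
    (hw1 : ∑ i ∈ range r, w i = 1) (hw : ∑ i ∈ range r, w i • q i = 0) :
    4 ≤ ∑ k ∈ range r, ‖q (k + 1) - q k‖ := by
  set t : ℕ → ℝ := fun i => ∑ k ∈ range i, ‖q (k + 1) - q k‖ with ht
  have hmono : ∀ i j, i ≤ j → ‖q j - q i‖ ≤ t j - t i := by
    intro i j hij
    induction j, hij using Nat.le_induction with
    | base => simp
    | succ j hij ih =>
      have : t (j + 1) = t j + ‖q (j + 1) - q j‖ := by simp [ht, Finset.sum_range_succ]
      calc ‖q (j + 1) - q i‖ = ‖(q (j + 1) - q j) + (q j - q i)‖ := by congr 1; abel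
        _ ≤ ‖q (j + 1) - q j‖ + ‖q j - q i‖ := norm_add_le _ _
        _ ≤ _ := by linarith
  have ht0 : t 0 = 0 := by simp [ht]
  have hle : ∀ i j, i ≤ j → t i ≤ t j := fun i j hij => by
    linarith [hmono i j hij, norm_nonneg (q j - q i)]
  have hd : ∀ i j, i ≤ j → j ≤ r → ‖q i - q j‖ ≤ min |t i - t j| (t r - |t i - t j|) := by
    intro i j hij hjr
    rw [abs_sub_comm, abs_of_nonneg (sub_nonneg.mpr (hle i j hij))]
    apply le_min
    · rw [norm_sub_rev]; exact hmono i j hij
    · have a := hmono j r hjr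
      have b := hmono 0 i (Nat.zero_le _)
      calc ‖q i - q j‖ = ‖(q i - q 0) + (q r - q j)‖ := by rw [hq]; congr 1; abel
        _ ≤ ‖q i - q 0‖ + ‖q r - q j‖ := norm_add_le _ _
        _ ≤ _ := by linarith
  have hd' : ∀ i ∈ range r, ∀ j ∈ range r,
      ‖q i - q j‖ ≤ min |t i - t j| (t r - |t i - t j|) := by
    intro i hi j hj
    rcases le_total i j with h | h
    · exact hd i j h (mem_range.mp hj).le
    · rw [norm_sub_rev, abs_sub_comm]; exact hd j i h (mem_range.mp hi).le
  have hc := circle_avg (range r) (t r) w t hw1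
    (fun i _ => ht0 ▸ hle 0 i (Nat.zero_le _)) (fun i hi => hle i r (mem_range.mp hi).le)
  have hone : ∀ i ∈ range r, 1 ≤ ∑ j ∈ range r, w j * min |t i - t j| (t r - |t i - t j|) := by
    intro i hi
    have e : q i = ∑ j ∈ range r, w j • (q i - q j) := by
      simp_rw [smul_sub]
      rw [Finset.sum_sub_distrib, hw, ← Finset.sum_smul, hw1, one_smul, sub_zero]
    calc (1 : ℝ) = ‖q i‖ := (h1 i hi).symm
      _ = ‖∑ j ∈ range r, w j • (q i - q j)‖ := by rw [← e]
      _ ≤ ∑ j ∈ range r, ‖w j • (q i - q j)‖ := norm_sum_le _ _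
      _ ≤ _ := by
        refine Finset.sum_le_sum fun j hj => ?_
        rw [norm_smul, Real.norm_of_nonneg (hw0 j hj)]
        exact mul_le_mul_of_nonneg_left (hd' i hi j hj) (hw0 j hj)
  have hsum : 1 ≤ ∑ i ∈ range r, ∑ j ∈ range r,
      w i * w j * min |t i - t j| (t r - |t i - t j|) := by
    calc (1 : ℝ) = ∑ i ∈ range r, w i * 1 := by simp [hw1]
      _ ≤ ∑ i ∈ range r, w i * ∑ j ∈ range r, w j * min |t i - t j| (t r - |t i - t j|) :=
          Finset.sum_le_sum fun i hi => mul_le_mul_of_nonneg_left (hone i hi) (hw0 i hi)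
      _ = _ := by
        refine Finset.sum_congr rfl fun i _ => ?_
        rw [Finset.mul_sum]
        exact Finset.sum_congr rfl fun j _ => by ring
  have : t r = ∑ k ∈ range r, ‖q (k + 1) - q k‖ := rfl
  linarith

end Pool.Agent.P.MP_768819_an
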