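import Mathlib
import Pool.Agent.P.MP_768819_an.Core

namespace Pool.Agent.P.MP_768819_an.Asym

open Finset

/-- overlap of two arcs of length `b` ending at `t` and `t'` on a circle of length `L` -/
lemma pair_le {L b t t' u u' e e' : ℝ} (hb : 0 ≤ b) (hbL : 2 * b ≤ L) (h0 : 0 ≤ t) (h1 : t ≤ L)
    (h0' : 0 ≤ t') (h1' : t' ≤ L)
    (hu : (t < b ∧ u = t - b + L ∧ e = 1) ∨ (b ≤ t ∧ u = t - b ∧ e = 0))
    (hu' : (t' < b ∧ u' = t' - b + L ∧ e' = 1) ∨ (b ≤ t' ∧ u' = t' - b ∧ e' = 0)) :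
    (|t - u'| + |u - t'| - |t - t'| - |u - u'|) / 2 + e' * (t - u) + e * (t' - u') + e * e' * L
      ≤ max (b - |t - t'|) 0 + max (b - (L - |t - t'|)) 0 := by
  have m1 := le_max_left (b - |t - t'|) 0
  have m2 := le_max_right (b - |t - t'|) 0
  have m3 := le_max_left (b - (L - |t - t'|)) 0
  have m4 := le_max_right (b - (L - |t - t'|)) 0
  generalize max (b - |t - t'|) 0 = A at *
  generalize max (b - (L - |t - t'|)) 0 = B at *
  rcases hu with ⟨a1, rfl, rfl⟩ | ⟨a1, rfl, rfl⟩ <;>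
  rcases hu' with ⟨a2, rfl, rfl⟩ | ⟨a2, rfl, rfl⟩
  · have e1 : t - b + L - (t' - b + L) = t - t' := by ring
    rw [e1, abs_of_nonpos (by linarith : t - (t' - b + L) ≤ 0),
      abs_of_nonneg (by linarith : 0 ≤ t - b + L - t')] 
    linarith
  · rcases abs_cases (t - (t' - b)) with ⟨c1, d1⟩ | ⟨c1, d1⟩ <;>
    rcases abs_cases (t - b + L - t') with ⟨c2, d2⟩ | ⟨c2, d2⟩ <;>
    rw [c1, c2, abs_of_nonpos (by linarith : t - t' ≤ 0),
      abs_of_nonneg (by linarith : 0 ≤ t - b + L - (t' - b))] at * <;>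
    linarith
  · rcases abs_cases (t - (t' - b + L)) with ⟨c1, d1⟩ | ⟨c1, d1⟩ <;>
    rcases abs_cases (t - b - t') with ⟨c2, d2⟩ | ⟨c2, d2⟩ <;>
    rw [c1, c2, abs_of_nonneg (by linarith : 0 ≤ t - t'),
      abs_of_nonpos (by linarith : t - b - (t' - b + L) ≤ 0)] at * <;>
    linarith
  · have e1 : t - b - (t' - b) = t - t' := by ring
    rw [e1]
    rcases abs_cases (t - (t' - b)) with ⟨c1, d1⟩ | ⟨c1, d1⟩ <;>
    rcases abs_cases (t - b - t') with ⟨c2, d2⟩ | ⟨c2, d2⟩ <;>
    rcases abs_cases (t - t') with ⟨c3, d3⟩ | ⟨c3, d3⟩ <;>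
    linarith

/-- variance of the mass of a random arc is nonnegative -/
lemma arc_var {ι : Type*} (s : Finset ι) (L b β : ℝ) (hb : 0 ≤ b) (hbL : 2 * b ≤ L) (w t : ι → ℝ)
    (hw0 : ∀ i ∈ s, 0 ≤ w i) (hw : ∑ i ∈ s, w i = 1)
    (h0 : ∀ i ∈ s, 0 ≤ t i) (h1 : ∀ i ∈ s, t i ≤ L) :
    2 * β * b - β ^ 2 * L ≤ ∑ i ∈ s, ∑ j ∈ s,
      w i * w j * (max (b - |t i - t j|) 0 + max (b - (L - |t i - t j|)) 0) := by
  classical
  let u : ι → ℝ := fun i => if t i < b then t i - b + L else t i - b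
  let e : ι → ℝ := fun i => if t i < b then 1 else 0
  have hu : ∀ i, (t i < b ∧ u i = t i - b + L ∧ e i = 1) ∨ (b ≤ t i ∧ u i = t i - b ∧ e i = 0) := by
    intro i
    by_cases h : t i < b
    · left; simp [u, e, h]
    · right; simp [u, e, h, not_lt.mp h]
  have hu0 : ∀ i ∈ s, 0 ≤ u i ∧ u i ≤ L ∧ t i - u i + e i * L = b := by
    intro i hi
    have := h0 i hi
    have := h1 i hi
    rcases hu i with ⟨a1, a2, a3⟩ | ⟨a1, a2, a3⟩ <;> rw [a2, a3] <;>
      refine ⟨by linarith, by linarith, by ring⟩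
  let c : ι × Fin 3 → ℝ := fun x => w x.1 * ![1 / 2, -1 / 2, e x.1 - β] x.2
  let v : ι × Fin 3 → ℝ := fun x => ![t x.1, u x.1, L] x.2
  have hL : 0 ≤ L := by linarith
  have hp := psd (s ×ˢ (univ : Finset (Fin 3))) L c v
    (by
      rintro ⟨i, k⟩ hx
      have hi : i ∈ s := (mem_product.mp hx).1
      fin_cases k
      · exact h0 i hi
      · exact (hu0 i hi).1
      · exact hL)
    (by
      rintro ⟨i, k⟩ hx
      have hi : i ∈ s := (mem_product.mp hx).1
      fin_cases k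
      · exact h1 i hi
      · exact (hu0 i hi).2.1
      · exact le_rfl)
  have hre : ∑ x ∈ s ×ˢ (univ : Finset (Fin 3)), ∑ y ∈ s ×ˢ (univ : Finset (Fin 3)),
      c x * c y * (L - 2 * |v x - v y|) = ∑ i ∈ s, ∑ j ∈ s, ∑ k : Fin 3, ∑ l : Fin 3,
      c (i, k) * c (j, l) * (L - 2 * |v (i, k) - v (j, l)|) := by
    rw [Finset.sum_product]
    refine Finset.sum_congr rfl fun i _ => ?_
    simp_rw [Finset.sum_product]
    rw [Finset.sum_comm]
  rw [hre] at hp
  have hk : ∀ i ∈ s, ∀ j ∈ s, ∑ k : Fin 3, ∑ l : Fin 3,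
      c (i, k) * c (j, l) * (L - 2 * |v (i, k) - v (j, l)|) ≤
      w i * w j * (max (b - |t i - t j|) 0 + max (b - (L - |t i - t j|)) 0)
        - w i * w j * (2 * β * b - β ^ 2 * L) := by
    intro i hi j hj
    have hpair := pair_le hb hbL (h0 i hi) (h1 i hi) (h0 j hj) (h1 j hj) (hu i) (hu j)
    obtain ⟨a1, a2, a3⟩ := hu0 i hi
    obtain ⟨b1, b2, b3⟩ := hu0 j hj
    have e1 : |t i - L| = L - t i := by rw [abs_of_nonpos (by linarith [h1 i hi])]; ring
    have e2 : |u i - L| = L - u i := by rw [abs_of_nonpos (by linarith)]; ring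
    have e3 : |L - t j| = L - t j := abs_of_nonneg (by linarith [h1 j hj])
    have e4 : |L - u j| = L - u j := abs_of_nonneg (by linarith)
    have hww : 0 ≤ w i * w j := mul_nonneg (hw0 i hi) (hw0 j hj)
    have hid : ∑ k : Fin 3, ∑ l : Fin 3,
        c (i, k) * c (j, l) * (L - 2 * |v (i, k) - v (j, l)|) = w i * w j *
        ((|t i - u j| + |u i - t j| - |t i - t j| - |u i - u j|) / 2 + e j * (t i - u i)
          + e i * (t j - u j) + e i * e j * L
          - β * (t i - u i + e i * L) - β * (t j - u j + e j * L) + β ^ 2 * L) := by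
      simp only [Fin.sum_univ_three, c, v, Matrix.cons_val_zero, Matrix.cons_val_one,
        Matrix.cons_val, sub_self, abs_zero, e1, e2, e3, e4]
      ring
    rw [hid, a3, b3, ← mul_sub]
    apply mul_le_mul_of_nonneg_left _ hww
    linarith
  have h2 := hp.trans (Finset.sum_le_sum fun i hi => Finset.sum_le_sum fun j hj => hk i hi j hj)
  simp_rw [Finset.sum_sub_distrib, ← Finset.sum_mul] at h2
  rw [← Finset.sum_mul_sum, hw] at h2
  linarith

section lower

variable {X : Type*} [AddCommGroup X] [Module ℝ X] (N : X → ℝ)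
  (hadd : ∀ x y, N (x + y) ≤ N x + N y) (hsm : ∀ (a : ℝ) (x : X), 0 ≤ a → N (a • x) = a * N x)

include hsm in
lemma N_zero : N 0 = 0 := by simpa using hsm 0 0 le_rfl

include hadd hsm in
lemma N_sum_le {ι : Type*} (s : Finset ι) (f : ι → X) : N (∑ i ∈ s, f i) ≤ ∑ i ∈ s, N (f i) := by
  classical
  induction s using Finset.induction_on with
  | empty => simp [N_zero N hsm]
  | insert a s ha ih =>
    rw [Finset.sum_insert ha, Finset.sum_insert ha]
    linarith [hadd (f a) (∑ i ∈ s, f i)]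

include hadd hsm in
lemma lower_nat (s : ℝ) (hs : 1 ≤ s) (hneg : ∀ x, N (-x) ≤ s * N x) (r : ℕ) (q : ℕ → X)
    (hq : q r = q 0) (h1 : ∀ i ∈ range r, N (q i) = 1) (w : ℕ → ℝ)
    (hw0 : ∀ i ∈ range r, 0 ≤ w i) (hw1 : ∑ i ∈ range r, w i = 1)
    (hw : ∑ i ∈ range r, w i • q i = 0) :
    2 + 2 / s ≤ ∑ k ∈ range r, N (q (k + 1) - q k) := by
  have hN0 : ∀ x, 0 ≤ N x := fun x => by
    have a := hadd x (-x)
    rw [add_neg_cancel, N_zero N hsm] at a
    nlinarith [hneg x]
  set t : ℕ → ℝ := fun i => ∑ k ∈ range i, N (q (k + 1) - q k) with ht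
  have hmono : ∀ i j, i ≤ j → N (q j - q i) ≤ t j - t i := by
    intro i j hij
    induction j, hij using Nat.le_induction with
    | base => simp [N_zero N hsm]
    | succ j hij ih =>
      have : t (j + 1) = t j + N (q (j + 1) - q j) := by simp [ht, Finset.sum_range_succ]
      calc N (q (j + 1) - q i) = N ((q (j + 1) - q j) + (q j - q i)) := by congr 1; abel
        _ ≤ N (q (j + 1) - q j) + N (q j - q i) := hadd _ _
        _ ≤ _ := by linarith
  have ht0 : t 0 = 0 := by simp [ht]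
  have hle : ∀ i j, i ≤ j → t i ≤ t j := fun i j hij => by
    linarith [hmono i j hij, hN0 (q j - q i)]
  set L := t r with hL
  have hL0 : 0 ≤ L := ht0 ▸ hle 0 r (Nat.zero_le _)
  have hs1 : 0 < s + 1 := by linarith
  set b := L / (s + 1) with hb
  have hbL : (s + 1) * b = L := by rw [hb]; field_simp
  have hb0 : 0 ≤ b := div_nonneg hL0 hs1.le
  have hd : ∀ i j, i ≤ j → j ≤ r → N (q i - q j) + N (q j - q i) ≤
      L - (s + 1) * (max (b - |t i - t j|) 0 + max (b - (L - |t i - t j|)) 0) := by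
    intro i j hij hjr
    rw [abs_sub_comm, abs_of_nonneg (sub_nonneg.mpr (hle i j hij))]
    have f1 := hmono i j hij
    have f2 : N (q i - q j) ≤ L - (t j - t i) := by
      have a := hmono j r hjr
      have b := hmono 0 i (Nat.zero_le _)
      calc N (q i - q j) = N ((q i - q 0) + (q r - q j)) := by rw [hq]; congr 1; abel
        _ ≤ N (q i - q 0) + N (q r - q j) := hadd _ _
        _ ≤ _ := by linarith
    have f3 : N (q i - q j) ≤ s * (t j - t i) := by
      have a := hneg (q j - q i)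
      rw [neg_sub] at a
      exact a.trans (mul_le_mul_of_nonneg_left f1 (by linarith))
    have f4 : N (q j - q i) ≤ s * (L - (t j - t i)) := by
      have a := hneg (q i - q j)
      rw [neg_sub] at a
      exact a.trans (mul_le_mul_of_nonneg_left f2 (by linarith))
    rcases max_cases (b - (t j - t i)) 0 with ⟨c1, _⟩ | ⟨c1, _⟩ <;>
    rcases max_cases (b - (L - (t j - t i))) 0 with ⟨c2, _⟩ | ⟨c2, _⟩ <;>
    rw [c1, c2] <;> nlinarith
  have hd' : ∀ i ∈ range r, ∀ j ∈ range r, N (q i - q j) + N (q j - q i) ≤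
      L - (s + 1) * (max (b - |t i - t j|) 0 + max (b - (L - |t i - t j|)) 0) := by
    intro i hi j hj
    rcases le_total i j with h | h
    · exact hd i j h (mem_range.mp hj).le
    · rw [add_comm (N _), abs_sub_comm]; exact hd j i h (mem_range.mp hi).le
  have hc := arc_var (range r) L b (1 / (s + 1)) hb0 (by nlinarith) w t hw0 hw1
    (fun i _ => ht0 ▸ hle 0 i (Nat.zero_le _)) (fun i hi => hle i r (mem_range.mp hi).le)
  have hone : ∀ i ∈ range r, 1 ≤ ∑ j ∈ range r, w j * N (q i - q j) := by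
    intro i hi
    have e : q i = ∑ j ∈ range r, w j • (q i - q j) := by
      simp_rw [smul_sub]
      rw [Finset.sum_sub_distrib, hw, ← Finset.sum_smul, hw1, one_smul, sub_zero]
    calc (1 : ℝ) = N (q i) := (h1 i hi).symm
      _ = N (∑ j ∈ range r, w j • (q i - q j)) := by rw [← e]
      _ ≤ ∑ j ∈ range r, N (w j • (q i - q j)) := N_sum_le N hadd hsm _ _
      _ = _ := Finset.sum_congr rfl fun j hj => hsm _ _ (hw0 j hj)
  have hsum : 1 ≤ ∑ i ∈ range r, ∑ j ∈ range r, w i * w j * N (q i - q j) := by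
    calc (1 : ℝ) = ∑ i ∈ range r, w i * 1 := by simp [hw1]
      _ ≤ ∑ i ∈ range r, w i * ∑ j ∈ range r, w j * N (q i - q j) :=
          Finset.sum_le_sum fun i hi => mul_le_mul_of_nonneg_left (hone i hi) (hw0 i hi)
      _ = _ := by
        refine Finset.sum_congr rfl fun i _ => ?_
        rw [Finset.mul_sum]
        exact Finset.sum_congr rfl fun j _ => by ring
  have hsum' : 1 ≤ ∑ i ∈ range r, ∑ j ∈ range r, w i * w j * N (q j - q i) := by
    rw [Finset.sum_comm]
    simpa only [mul_comm (w _) (w _)] using hsum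
  have hfin : ∑ i ∈ range r, ∑ j ∈ range r, w i * w j * N (q i - q j)
      + ∑ i ∈ range r, ∑ j ∈ range r, w i * w j * N (q j - q i) ≤
      ∑ i ∈ range r, ∑ j ∈ range r, (w i * w j * L - (s + 1) * (w i * w j *
        (max (b - |t i - t j|) 0 + max (b - (L - |t i - t j|)) 0))) := by
    rw [← Finset.sum_add_distrib]
    refine Finset.sum_le_sum fun i hi => ?_
    rw [← Finset.sum_add_distrib]
    refine Finset.sum_le_sum fun j hj => ?_
    have := mul_le_mul_of_nonneg_left (hd' i hi j hj) (mul_nonneg (hw0 i hi) (hw0 j hj))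
    linarith
  simp_rw [Finset.sum_sub_distrib, ← Finset.mul_sum, ← Finset.sum_mul] at hfin
  rw [← Finset.sum_mul_sum, hw1] at hfin
  simp_rw [Finset.mul_sum] at hfin
  have hc' := mul_le_mul_of_nonneg_left hc hs1.le
  simp_rw [Finset.mul_sum] at hc'
  have e1 : (s + 1) * (2 * (1 / (s + 1)) * b - (1 / (s + 1)) ^ 2 * L) = b := by
    rw [← hbL]; field_simp; ring
  have h2 : 2 ≤ s * b := by nlinarith
  have hs0 : 0 < s := by linarith
  have : 2 + 2 / s = (s + 1) * (2 / s) := by field_simp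
  change _ ≤ L
  rw [this, ← hbL]
  apply mul_le_mul_of_nonneg_left _ hs1.le
  rw [div_le_iff₀ hs0]; linarith

end lower

section lowerFin

variable {X : Type*} [AddCommGroup X] [Module ℝ X]

lemma lower_fin (N : X → ℝ) (hadd : ∀ x y, N (x + y) ≤ N x + N y)
    (hsm : ∀ (a : ℝ) (x : X), 0 ≤ a → N (a • x) = a * N x) (s : ℝ) (hs : 1 ≤ s)
    (hneg : ∀ x, N (-x) ≤ s * N x) (r : ℕ) (hr : 2 ≤ r)
    (p : Fin r → X) (hp : ∀ i, N (p i) = 1) (h0 : (0 : X) ∈ convexHull ℝ (Set.range p))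
    (σ : Equiv.Perm (Fin r)) :
    2 + 2 / s ≤ ∑ k : Fin r, N (p (σ (finRotate r k)) - p (σ k)) := by
  obtain ⟨n, rfl⟩ : ∃ n, r = n + 1 := ⟨r - 1, by omega⟩
  have hrange : Set.range p = Set.range (fun k => p (σ k)) :=
    (σ.surjective.range_comp p).symm
  rw [hrange, convexHull_range_eq_exists_affineCombination] at h0
  obtain ⟨u, w, hw0, hw1, hw⟩ := h0
  rw [Finset.affineCombination_eq_linear_combination u _ w hw1] at hw
  classical
  let q : ℕ → X := fun i => p (σ (Fin.ofNat (n + 1) i))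
  let v : Fin (n + 1) → ℝ := fun i => if i ∈ u then w i else 0
  have hof : ∀ i : Fin (n + 1), Fin.ofNat (n + 1) (i : ℕ) = i := fun i => by
    ext; simp
  have key := lower_nat N hadd hsm s hs hneg (n + 1) q
    (by simp only [q]; congr 2; ext; simp) (fun i _ => hp _)
    (fun i => v (Fin.ofNat (n + 1) i))
    (fun i _ => by
      simp only [v]
      split_ifs with h
      · exact hw0 _ h
      · exact le_rfl)
    (by
      rw [Finset.sum_range]
      simp only [hof, v]
      rw [Finset.sum_ite_mem, Finset.univ_inter, hw1])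
    (by
      rw [Finset.sum_range]
      simp only [hof, v, q, ite_smul, zero_smul]
      rw [Finset.sum_ite_mem, Finset.univ_inter, hw])
  rw [Finset.sum_range] at key
  refine key.trans (le_of_eq (Finset.sum_congr rfl fun k _ => ?_))
  simp only [q, hof]
  congr 4
  rw [finRotate_apply]
  ext
  simp [Fin.val_add]

end lowerFin

section example_

/-- the gauge `x ↦ max_i max (a x_i, - b x_i)` -/
noncomputable def G (n : ℕ) (a b : ℝ) (x : Fin (n + 1) → ℝ) : ℝ :=
  Finset.univ.sup' Finset.univ_nonempty fun i => max (a * x i) (-b * x i)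

lemma le_G (n : ℕ) (a b : ℝ) (x : Fin (n + 1) → ℝ) (i : Fin (n + 1)) :
    a * x i ≤ G n a b x ∧ -b * x i ≤ G n a b x := by
  have h : max (a * x i) (-b * x i) ≤ G n a b x :=
    Finset.le_sup' (fun i => max (a * x i) (-b * x i)) (Finset.mem_univ i)
  exact ⟨(le_max_left _ _).trans h, (le_max_right _ _).trans h⟩

lemma G_le (n : ℕ) (a b : ℝ) (x : Fin (n + 1) → ℝ) (c : ℝ)
    (h : ∀ i, a * x i ≤ c ∧ -b * x i ≤ c) : G n a b x ≤ c :=
  Finset.sup'_le _ _ fun i _ => max_le (h i).1 (h i).2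

lemma G_add (n : ℕ) (a b : ℝ) (x y : Fin (n + 1) → ℝ) :
    G n a b (x + y) ≤ G n a b x + G n a b y := by
  refine G_le _ _ _ _ _ fun i => ?_
  have h1 := le_G n a b x i
  have h2 := le_G n a b y i
  simp only [Pi.add_apply]
  constructor <;> linarith [h1.1, h1.2, h2.1, h2.2]

lemma G_smul (n : ℕ) (a b c : ℝ) (x : Fin (n + 1) → ℝ) (hc : 0 ≤ c) :
    G n a b (c • x) = c * G n a b x := by
  apply le_antisymm
  · refine G_le _ _ _ _ _ fun i => ?_
    have h1 := le_G n a b x i
    simp only [Pi.smul_apply, smul_eq_mul]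
    constructor
    · nlinarith [mul_le_mul_of_nonneg_left h1.1 hc]
    · nlinarith [mul_le_mul_of_nonneg_left h1.2 hc]
  · obtain ⟨i, _, hi⟩ := Finset.exists_mem_eq_sup' Finset.univ_nonempty
      (fun i : Fin (n + 1) => max (a * x i) (-b * x i))
    have h1 := le_G n a b (c • x) i
    simp only [Pi.smul_apply, smul_eq_mul] at h1
    have e : G n a b x = max (a * x i) (-b * x i) := hi
    rw [e, mul_max_of_nonneg _ _ hc]
    exact max_le (by linarith [h1.1]) (by linarith [h1.2])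

lemma G_pos (n : ℕ) (a b : ℝ) (ha : 0 < a) (hb : 0 < b) (x : Fin (n + 1) → ℝ) (hx : x ≠ 0) :
    0 < G n a b x := by
  obtain ⟨i, hi⟩ := Function.ne_iff.mp hx
  have h1 := le_G n a b x i
  rcases lt_or_gt_of_ne hi with h | h
  · have : x i < 0 := h
    nlinarith [h1.2]
  · have : 0 < x i := h
    nlinarith [h1.1]

lemma G_neg (n : ℕ) (a b s : ℝ) (hb : 0 < b) (hab : b ≤ a) (hs : a ≤ s * b)
    (x : Fin (n + 1) → ℝ) : G n a b (-x) ≤ s * G n a b x := by
  have hs1 : 1 ≤ s := by nlinarith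
  refine G_le _ _ _ _ _ fun i => ?_
  have h1 := le_G n a b x i
  simp only [Pi.neg_apply]
  rcases le_total 0 (x i) with h | h
  · have h2 : 0 ≤ a * x i := mul_nonneg (by linarith) h
    have h3 : 0 ≤ G n a b x := h2.trans h1.1
    constructor <;> nlinarith [h1.1, mul_nonneg (sub_nonneg.mpr hab) h,
      mul_nonneg (sub_nonneg.mpr hs1) h3]
  · have h2 : 0 ≤ -b * x i := by nlinarith
    have h3 : 0 ≤ G n a b x := h2.trans h1.2
    have h4 := mul_le_mul_of_nonneg_left h1.2 (by linarith : 0 ≤ s)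
    constructor
    · nlinarith [mul_nonneg (sub_nonneg.mpr hs) (neg_nonneg.mpr h)]
    · nlinarith [mul_nonneg (by linarith : 0 ≤ s) h3]

/-- the tent with slopes `b` and `-a` on the integers of `[0, a + b]` -/
noncomputable def T (a b : ℕ) (d : ℕ) : ℝ := min ((b : ℝ) * d) (a * (a + b - d))

lemma T_sum (a b : ℕ) : ∑ d ∈ range (a + b), T a b d = a * b * (a + b) / 2 := by
  rw [Finset.sum_range_add]
  have h1 : ∑ d ∈ range a, T a b d = ∑ d ∈ range a, (b : ℝ) * d := by
    refine Finset.sum_congr rfl fun d hd => ?_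
    have : (d : ℝ) ≤ a := by exact_mod_cast (mem_range.mp hd).le
    apply min_eq_left
    nlinarith [(Nat.cast_nonneg a : (0 : ℝ) ≤ a), (Nat.cast_nonneg b : (0 : ℝ) ≤ b)]
  have h2 : ∑ d ∈ range b, T a b (a + d) = ∑ d ∈ range b, ((a : ℝ) * b - a * d) := by
    refine Finset.sum_congr rfl fun d _ => ?_
    unfold T
    push_cast
    rw [min_eq_right]
    · ring
    · nlinarith [(Nat.cast_nonneg a : (0 : ℝ) ≤ a), (Nat.cast_nonneg b : (0 : ℝ) ≤ b),
        (Nat.cast_nonneg d : (0 : ℝ) ≤ d)]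
  have h3 : ∀ m : ℕ, ∑ d ∈ range m, (d : ℝ) = m * (m - 1) / 2 := by
    intro m
    induction m with
    | zero => simp
    | succ m ih => rw [Finset.sum_range_succ, ih]; push_cast; ring
  rw [h1, h2, Finset.sum_sub_distrib, ← Finset.mul_sum, ← Finset.mul_sum, ← Finset.mul_sum, h3, h3]
  simp
  ring

lemma T_bounds (a b d : ℕ) (hd : d ≤ a + b) : 0 ≤ T a b d ∧ T a b d ≤ a * b := by
  have ha : (0 : ℝ) ≤ a := Nat.cast_nonneg a
  have hb : (0 : ℝ) ≤ b := Nat.cast_nonneg b
  have h0 : (0 : ℝ) ≤ d := Nat.cast_nonneg d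
  have h1 : (d : ℝ) ≤ a + b := by exact_mod_cast hd
  refine ⟨le_min (by positivity) (mul_nonneg ha (by linarith)), ?_⟩
  rcases le_total (d : ℝ) a with h | h
  · exact (min_le_left _ _).trans (by nlinarith)
  · exact (min_le_right _ _).trans (by nlinarith)

lemma T_step (a b d : ℕ) : T a b (d + 1) - T a b d ≤ b ∧ -(a : ℝ) ≤ T a b (d + 1) - T a b d := by
  have ha : (0 : ℝ) ≤ a := Nat.cast_nonneg a
  have hb : (0 : ℝ) ≤ b := Nat.cast_nonneg b
  unfold T
  push_cast
  rcases min_cases ((b : ℝ) * (d + 1)) (a * (a + b - (d + 1))) with ⟨c1, d1⟩ | ⟨c1, d1⟩ <;>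
  rcases min_cases ((b : ℝ) * d) (a * (a + b - d)) with ⟨c2, d2⟩ | ⟨c2, d2⟩ <;>
  rw [c1, c2] <;> constructor <;> nlinarith

lemma T_step_fin (a b n : ℕ) (h : a + b = n + 1) (d : Fin (n + 1)) :
    T a b (d + 1 : Fin (n + 1)) - T a b d ≤ b ∧
      -(a : ℝ) ≤ T a b (d + 1 : Fin (n + 1)) - T a b d := by
  have hs := T_step a b d
  rw [Fin.val_add_one]
  split_ifs with hd
  · have e : T a b 0 = T a b (d + 1) := by
      subst hd
      have h' : (a : ℝ) + b = n + 1 := by exact_mod_cast h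
      have hb : (0 : ℝ) ≤ b := Nat.cast_nonneg b
      have ha : (0 : ℝ) ≤ a := Nat.cast_nonneg a
      unfold T
      rw [h', Fin.val_last]
      push_cast
      rw [min_eq_left (by simp; positivity), min_eq_right (by simp; positivity)]
      simp
    rw [e]; exact hs
  · exact hs

lemma example_ab (a b n : ℕ) (h : a + b = n + 1) (hb : 0 < b) (hab : b ≤ a) :
    ∃ p : Fin (n + 1) → (Fin (n + 1) → ℝ), (∀ j, G n a b (p j) = 1) ∧
      (0 : Fin (n + 1) → ℝ) ∈ convexHull ℝ (Set.range p) ∧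
      ∑ k, G n a b (p (finRotate (n + 1) k) - p k) ≤ 2 + 2 * b / a := by
  have hb' : (0 : ℝ) < b := by exact_mod_cast hb
  have hab' : (b : ℝ) ≤ a := by exact_mod_cast hab
  have ha' : (0 : ℝ) < a := by linarith
  have h' : (a : ℝ) + b = n + 1 := by exact_mod_cast h
  set κ : ℝ := 2 / (a ^ 2 * b) with hκ
  have hκ0 : 0 < κ := by positivity
  have hκ1 : κ * (a * b) = 2 / a := by rw [hκ]; field_simp
  let p : Fin (n + 1) → (Fin (n + 1) → ℝ) := fun j i => 1 / a - κ * T a b (i - j : Fin (n + 1))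
  have hT : ∀ d : Fin (n + 1), 0 ≤ T a b d ∧ T a b d ≤ a * b := fun d =>
    T_bounds a b d (by have := d.2; omega)
  refine ⟨p, fun j => le_antisymm (G_le _ _ _ _ _ fun i => ?_) ?_, ?_, ?_⟩
  · have h1 := hT (i - j)
    have h2 := mul_le_mul_of_nonneg_left h1.2 hκ0.le
    have h3 := mul_nonneg hκ0.le h1.1
    have h4 : (a : ℝ) * (1 / a) = 1 := by field_simp
    have h5 : (b : ℝ) * (1 / a) ≤ 1 :=
      (mul_le_mul_of_nonneg_right hab' (by positivity)).trans h4.le
    have h6 : (2 : ℝ) / a = 2 * (1 / a) := by ring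
    simp only [p]
    constructor <;> nlinarith
  · have h1 := (le_G n a b (p j) j).1
    have h4 : (a : ℝ) * (1 / a) = 1 := by field_simp
    have h0 : T a b 0 = 0 := by
      unfold T
      rw [min_eq_left (by simp; positivity)]; simp
    simp only [p, sub_self, Fin.val_zero, h0, mul_zero, sub_zero] at h1
    linarith
  · have e : (0 : Fin (n + 1) → ℝ) = ∑ j, (1 / ((n : ℝ) + 1)) • p j := by
      rw [← Finset.smul_sum]
      have : ∑ j, p j = 0 := by
        ext i
        simp only [p, Finset.sum_apply, Finset.sum_sub_distrib, ← Finset.mul_sum, Pi.zero_apply]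
        have e1 : ∑ j : Fin (n + 1), T a b (i - j : Fin (n + 1)) = ∑ d : Fin (n + 1), T a b d :=
          Equiv.sum_comp (Equiv.subLeft i) (fun d : Fin (n + 1) => T a b d)
        have e2 : ∑ d : Fin (n + 1), T a b d = a * b * (a + b) / 2 := by
          rw [← Finset.sum_range (fun d => T a b d), ← h, T_sum]
        rw [e1, e2, h']
        simp only [Finset.sum_const, Finset.card_univ, Fintype.card_fin, nsmul_eq_mul]
        push_cast
        rw [hκ]; field_simp; ring
      rw [this, smul_zero]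
    rw [e]
    refine (convex_convexHull ℝ _).sum_mem (fun _ _ => by positivity) ?_
      (fun j _ => subset_convexHull ℝ _ ⟨j, rfl⟩)
    simp only [Finset.sum_const, Finset.card_univ, Fintype.card_fin, nsmul_eq_mul]
    push_cast
    field_simp
  · have hk : ∀ k, G n a b (p (finRotate (n + 1) k) - p k) ≤ 2 / a := by
      intro k
      refine G_le _ _ _ _ _ fun i => ?_
      have h1 := T_step_fin a b n h (i - (k + 1))
      have e : i - (k + 1) + 1 = i - k := by abel
      rw [e] at h1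
      simp only [p, Pi.sub_apply, finRotate_apply]
      have h2 := mul_le_mul_of_nonneg_left h1.1 (mul_nonneg hκ0.le ha'.le)
      have h3 := mul_le_mul_of_nonneg_left h1.2 (mul_nonneg hκ0.le hb'.le)
      constructor <;> nlinarith
    calc _ ≤ ∑ _k : Fin (n + 1), (2 : ℝ) / a := Finset.sum_le_sum fun k _ => hk k
      _ = _ := by
        simp only [Finset.sum_const, Finset.card_univ, Fintype.card_fin, nsmul_eq_mul]
        push_cast
        rw [← h']; field_simp

lemma exists_ab (s c : ℝ) (hs : 1 ≤ s) (hc : 2 + 2 / s < c) :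
    ∃ a b : ℕ, 0 < b ∧ b ≤ a ∧ (a : ℝ) ≤ s * b ∧ 2 + 2 * (b : ℝ) / a < c := by
  have hs0 : 0 < s := by linarith
  have h1 : 2 < (c - 2) * s := by
    have : 2 / s < c - 2 := by linarith
    rwa [div_lt_iff₀ hs0] at this
  have hγ : 0 < c - 2 := by nlinarith
  obtain ⟨b, hb⟩ := exists_nat_gt ((c - 2) / ((c - 2) * s - 2))
  have hq : 0 < (c - 2) / ((c - 2) * s - 2) := div_pos hγ (by linarith)
  have hb0 : (0 : ℝ) < b := hq.trans hb
  rw [div_lt_iff₀ (by linarith)] at hb
  have hsb : (0 : ℝ) ≤ s * b := by positivity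
  have f1 := Nat.floor_le hsb
  have f2 := Nat.lt_floor_add_one (s * b)
  have f3 : b ≤ ⌊s * b⌋₊ := Nat.le_floor (by nlinarith)
  have f4 : (b : ℝ) ≤ ⌊s * b⌋₊ := by exact_mod_cast f3
  refine ⟨⌊s * b⌋₊, b, by exact_mod_cast hb0, f3, f1, ?_⟩
  have : 2 * (b : ℝ) / ⌊s * b⌋₊ < c - 2 := by
    rw [div_lt_iff₀ (by linarith)]
    nlinarith
  linarith

end example_

end Pool.Agent.P.MP_768819_an.Asym
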