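import Mathlib
import Pool.Agent.P.MP_768819_an.Core

namespace Pool.Agent.Results.MP_768819_an.CircuitGeFour

open Finset

/-- In every real normed space, every Hamiltonian circuit through unit vectors
`p 0, ..., p (r-1)` whose convex hull contains the origin has length at least 4.
`finRotate r` is the cyclic shift `k ↦ k + 1 mod r` on `Fin r`. -/
theorem result (X : Type*) [NormedAddCommGroup X] [NormedSpace ℝ X] (r : ℕ) (hr : 2 ≤ r)
    (p : Fin r → X) (hp : ∀ i, ‖p i‖ = 1) (h0 : (0 : X) ∈ convexHull ℝ (Set.range p))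
    (σ : Equiv.Perm (Fin r)) :
    4 ≤ ∑ k : Fin r, ‖p (σ (finRotate r k)) - p (σ k)‖ := by
  obtain ⟨n, rfl⟩ : ∃ n, r = n + 1 := ⟨r - 1, by omega⟩
  have hrange : Set.range p = Set.range (fun k => p (σ k)) :=
    (σ.surjective.range_comp p).symm
  rw [hrange, convexHull_range_eq_exists_affineCombination] at h0
  obtain ⟨s, w, hw0, hw1, hw⟩ := h0
  rw [Finset.affineCombination_eq_linear_combination s _ w hw1] at hw
  classical
  let q : ℕ → X := fun i => p (σ (Fin.ofNat (n + 1) i))
  let v : Fin (n + 1) → ℝ := fun i => if i ∈ s then w i else 0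
  have hof : ∀ i : Fin (n + 1), Fin.ofNat (n + 1) (i : ℕ) = i := fun i => by
    ext; simp [Nat.mod_eq_of_lt i.2]
  have key := Pool.Agent.P.MP_768819_an.main_nat (n + 1) q
    (by simp only [q]; congr 2; ext; simp) (fun i _ => hp _)
    (fun i => v (Fin.ofNat (n + 1) i))
    (fun i _ => by
      simp only [v]
      split_ifs with h
      · exact hw0 _ h
      · exact le_rfl)
    (by
      rw [Finset.sum_range]
      simp only [hof, v]
      rw [Finset.sum_ite_mem, Finset.univ_inter, hw1])
    (by
      rw [Finset.sum_range]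
      simp only [hof, v, q, ite_smul, zero_smul]
      rw [Finset.sum_ite_mem, Finset.univ_inter, hw])
  rw [Finset.sum_range] at key
  refine key.trans (le_of_eq (Finset.sum_congr rfl fun k _ => ?_))
  simp only [q, hof]
  congr 4
  rw [finRotate_apply]
  ext
  simp [Fin.val_add]

end Pool.Agent.Results.MP_768819_an.CircuitGeFour
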